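import Pool.Agent.LUB.Stmts

/-!
# LUB, row NVN: non-vanishing of a minor of the matrix of logarithms
-/

set_option autoImplicit false

open Polynomial

namespace Pool.Agent.LUB.H88

theorem der_rat {Ω : Type} [Field Ω] [CharZero Ω] (D : Derivation ℤ Ω Ω) (q : ℚ) :
    D (algebraMap ℚ Ω q) = 0 := by
  have hd : ((q.den : ℕ) : Ω) ≠ 0 := by exact_mod_cast q.den_nz
  have h1 : ((q.den : ℕ) : Ω) * algebraMap ℚ Ω q = ((q.num : ℤ) : Ω) := by
    have h := congrArg (algebraMap ℚ Ω) (Rat.den_mul_eq_num q)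
    rw [map_mul, map_natCast, map_intCast] at h
    exact h
  have h2 := congrArg D h1
  rw [Derivation.leibniz, Derivation.map_natCast, smul_zero, add_zero] at h2
  have h3 : D ((q.num : ℤ) : Ω) = 0 := by
    have h4 := D.map_algebraMap q.num
    rw [eq_intCast] at h4
    exact h4
  rw [h3, smul_eq_mul] at h2
  exact (mul_eq_zero.1 h2).resolve_left hd

/-- Elements which are not constant are transcendental over the rational numbers. -/
theorem transc {Ω : Type} [Field Ω] [CharZero Ω] (D : Derivation ℤ Ω Ω) (T : Ω) (hT : D T ≠ 0) :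
    Transcendental ℚ T := by
  intro halg
  let D' : Derivation ℚ Ω Ω := Derivation.mk'
    { toFun := D
      map_add' := fun a b => D.map_add a b
      map_smul' := fun c a => by
        have : c • a = algebraMap ℚ Ω c * a := Algebra.smul_def c a
        rw [this, Derivation.leibniz, der_rat D c, smul_zero, add_zero]
        exact (Algebra.smul_def c (D a)).symm }
    (fun a b => D.leibniz a b)
  have h3 := D'.map_aeval (minpoly ℚ T) T
  rw [minpoly.aeval, map_zero, smul_eq_mul] at h3
  have h4 : aeval T (derivative (minpoly ℚ T)) ≠ 0 :=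
    (Irreducible.separable (minpoly.irreducible halg.isIntegral)).aeval_derivative_ne_zero
      (minpoly.aeval _ _)
  exact hT ((mul_eq_zero.1 h3.symm).resolve_left h4)

/-- Specialization commutes with homomorphisms. -/
theorem spr_map {S R : Type} [CommRing S] [CommRing R] (g : S →+* R) (f : ℤ[X][X]) (T : S) :
    (spr f T).map g = spr f (g T) := by
  unfold spr
  rw [Polynomial.map_map]
  congr 1
  apply Polynomial.ringHom_ext
  · intro a
    simp
  · simp

/-- Values of polynomials at the roots are integral. -/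
theorem int_val {K Ω : Type} [CommRing K] [Field Ω] [Algebra K Ω] (t : K) (f : ℤ[X][X])
    (hf : f.Monic) (θ : Ω) (hθ : (spr f (algebraMap K Ω t)).eval θ = 0) (u : ℤ[X][X]) :
    IsIntegral K θ ∧ IsIntegral K ((spr u (algebraMap K Ω t)).eval θ) := by
  have h1 : IsIntegral K θ := by
    refine ⟨spr f t, hf.map _, ?_⟩
    rw [← spr_map, eval_map] at hθ
    exact hθ
  refine ⟨h1, ?_⟩
  rw [← spr_map, eval_map, eval₂_eq_sum, Polynomial.sum]
  exact IsIntegral.sum _ fun i _ => isIntegral_algebraMap.mul (h1.pow i)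

theorem alg_prod {K Ω ι : Type} [Field K] [Field Ω] [Algebra K Ω] [Fintype ι] (x : ι → Ω)
    (m : ι → ℤ) (h : ∀ i, IsAlgebraic K (x i)) : IsAlgebraic K (∏ i, x i ^ m i) := by
  have h1 : ∀ i, x i ∈ algebraicClosure K Ω := fun i => (mem_algebraicClosure_iff).2 (h i)
  exact (mem_algebraicClosure_iff).1 (prod_mem fun i _ => zpow_mem (h1 i) _)

/-- The constant of a logarithm of a power. -/
theorem dlog {Ω : Type} [Field Ω] [CharZero Ω] (D : Derivation ℤ Ω Ω) (p M : ℕ) (hM : 0 < M)
    (x L W : Ω) (hx : x ≠ 0) (hxM : x ^ M = 1 + (p : Ω) ^ 2 * W)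
    (hL : D L * (1 + (p : Ω) ^ 2 * W) = (p : Ω) ^ 2 * D W) : D (L / M) = D x / x := by
  have hM0 : (M : Ω) ≠ 0 := by exact_mod_cast hM.ne'
  have h1 : D (x ^ M) = (p : Ω) ^ 2 * D W := by
    rw [hxM, map_add, Derivation.leibniz, Derivation.map_one_eq_zero, zero_add]
    have h2 : D ((p : Ω) ^ 2) = 0 := by
      rw [Derivation.leibniz_pow, Derivation.map_natCast, smul_zero, smul_zero]
    rw [h2, smul_zero, add_zero, smul_eq_mul]
  rw [Derivation.leibniz_pow] at h1
  rw [← hxM, ← h1] at hL
  have h2 : x ^ M = x ^ (M - 1) * x := by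
    rw [← pow_succ]
    congr 1
    omega
  have h3 : D (L / M) * M = D L := by
    have h4 : L / M * M = L := div_mul_cancel₀ _ hM0
    have h5 := congrArg D h4
    rw [Derivation.leibniz, Derivation.map_natCast, smul_zero, zero_add, smul_eq_mul] at h5
    rw [← h5]
    ring
  have hp : x ^ (M - 1) ≠ 0 := pow_ne_zero _ hx
  rw [eq_div_iff hx]
  apply mul_left_cancel₀ hM0
  apply mul_left_cancel₀ hp
  rw [h2] at hL
  simp only [nsmul_eq_mul, smul_eq_mul] at hL
  rw [← h3] at hL
  linear_combination hL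

theorem nvn : NvnStmt := by
  intro lgd omg sph spf rfl' cst axk dep p _ r f u hf hfull t₀ hsep hcop T₁ T hT M hM w b l hu
    hlog hdeg
  classical
  by_contra hcon
  push Not at hcon
  obtain ⟨n, hn⟩ : ∃ n, n = f.natDegree := ⟨_, rfl⟩
  have hFm : (spr f T).Monic := hf.map _
  have hFd : (spr f T).natDegree = n := by
    rw [hn]
    exact hf.natDegree_map _
  obtain ⟨Ω, _, _, _, D, hinj, hD, θ₀, hθ₀⟩ := omg p (spr f T) hFm
  obtain ⟨θ, hθ⟩ : ∃ θ : Fin n → Ω, (spr f T).map (algebraMap _ Ω) = ∏ j, (X - C (θ j)) := by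
    subst hFd
    exact ⟨θ₀, hθ₀⟩
  rw [← hn] at hdeg hcon
  set τ : Ω := algebraMap _ Ω T with hτ
  have hpΩ : (p : Ω) ≠ 0 := by
    exact_mod_cast (Fact.out : p.Prime).ne_zero
  have hDτ : D τ = (p : Ω) ^ 2 := by
    rw [hτ, hD, hT, map_add, Derivation.leibniz]
    have h1 : PowerSeries.derivative ℤ_[p] (PowerSeries.C (T₁ : ℤ_[p])) = 0 := by
      ext k
      simp
    have h2 : PowerSeries.derivative ℤ_[p] ((p : PowerSeries ℤ_[p]) ^ 2) = 0 := by
      rw [Derivation.leibniz_pow, Derivation.map_natCast, smul_zero, smul_zero]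
    rw [h1, h2, smul_zero, add_zero, zero_add]
    simp
  have hDτ0 : D τ ≠ 0 := by
    rw [hDτ]
    exact pow_ne_zero _ hpΩ
  have htr : Transcendental ℚ τ := transc D τ hDτ0
  have hprod : spr f τ = ∏ j, (X - C (θ j)) := by
    rw [hτ, ← spr_map]
    exact hθ
  have hroot : ∀ j, (spr f τ).eval (θ j) = 0 := by
    intro j
    rw [hprod, eval_prod]
    exact Finset.prod_eq_zero (Finset.mem_univ j) (by simp)
  have hθint : ∀ j, IsIntegral (Algebra.adjoin ℤ {τ}) (θ j) := fun j =>
    (int_val (K := Algebra.adjoin ℤ {τ}) ⟨τ, Algebra.subset_adjoin rfl⟩ f hf (θ j) (hroot j) 0).1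
  obtain ⟨s, hs⟩ := sph Ω τ htr n θ hθint t₀
  obtain ⟨hs1, hs2⟩ := spf Ω τ f n θ hprod s t₀ hs
  -- the roots are different
  have hsepC : ((sp f t₀).map (Int.castRingHom ℂ)).Separable := by
    have h1 := hsep.map (f := algebraMap ℚ ℂ)
    rw [Polynomial.map_map] at h1
    have h2 : (algebraMap ℚ ℂ).comp (Int.castRingHom ℚ) = Int.castRingHom ℂ :=
      RingHom.ext_int _ _
    rwa [h2] at h1
  rw [hs1, separable_prod_X_sub_C_iff] at hsepC
  have hθinj : Function.Injective θ := by
    intro i j hij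
    apply hsepC
    have : (⟨θ i, Algebra.subset_adjoin (by simp)⟩ :
        Algebra.adjoin ℤ ({τ} ∪ Set.range θ)) = ⟨θ j, Algebra.subset_adjoin (by simp)⟩ :=
      Subtype.ext hij
    exact congrArg s this
  have hFsep : ((spr f T).map (algebraMap _ Ω)).Separable := by
    rw [hθ, separable_prod_X_sub_C_iff]
    exact hθinj
  have haev : ∀ (g : (PowerSeries ℤ_[p])[X]) (x : Ω),
      aeval x g = (g.map (algebraMap _ Ω)).eval x := by
    intro g x
    rw [eval_map]
    rfl
  have hF0 : ∀ j, aeval (θ j) (spr f T) = 0 := by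
    intro j
    rw [haev, spr_map]
    exact hroot j
  have hFd' : ∀ j, aeval (θ j) (derivative (spr f T)) ≠ 0 := by
    intro j
    rw [haev, ← derivative_map]
    have h1 := hFsep.aeval_derivative_ne_zero (x := θ j) (by
      rw [aeval_map_algebraMap, hF0 j])
    rwa [coe_aeval_eq_eval] at h1
  -- the values are not zero
  have hx0 : ∀ i j, (spr (u i) τ).eval (θ j) ≠ 0 := by
    intro i j h0
    have h1 := hs2 (u i) j 0 (by rw [h0]; rfl)
    rw [map_zero] at h1
    have h2 : aeval (s ⟨θ j, Algebra.subset_adjoin (by simp)⟩) (sp f t₀) = (0 : ℂ) := by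
      have h3 : aeval (s ⟨θ j, Algebra.subset_adjoin (by simp)⟩) (sp f t₀) =
          ((sp f t₀).map (Int.castRingHom ℂ)).eval
            (s ⟨θ j, Algebra.subset_adjoin (by simp)⟩) := by
        rw [eval_map]
        rfl
      rw [h3, hs1, eval_prod]
      exact Finset.prod_eq_zero (Finset.mem_univ j) (by simp)
    obtain ⟨a, c, hac⟩ := hcop i
    have h3 := congrArg (fun g : ℚ[X] => aeval (s ⟨θ j, Algebra.subset_adjoin (by simp)⟩) g) hac
    simp only [map_add, map_mul, map_one] at h3
    have h4 : ∀ g : ℤ[X], aeval (s ⟨θ j, Algebra.subset_adjoin (by simp)⟩)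
        (g.map (Int.castRingHom ℚ)) = (aeval (s ⟨θ j, Algebra.subset_adjoin (by simp)⟩) g : ℂ) := by
      intro g
      rw [aeval_def, eval₂_map, aeval_def]
      congr 1
    rw [h4, h4, h2, ← h1, mul_zero, mul_zero, add_zero] at h3
    exact zero_ne_one h3
  obtain ⟨π, lam, hdet, hker⟩ := rfl' Ω τ htr r f u n θ hprod hx0 hfull
  -- a relation
  obtain ⟨α, hα, hrel⟩ := dep (PowerSeries ℤ_[p]) r n (fun i j => (l i).coeff j) hcon
  have hrel2 : ∑ i, C (α i) * l i = 0 := by
    ext1 k
    rw [finsetSum_coeff, coeff_zero]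
    simp only [coeff_C_mul]
    rcases lt_or_ge k n with hk | hk
    · exact hrel ⟨k, hk⟩
    · refine Finset.sum_eq_zero fun i _ => ?_
      rw [coeff_eq_zero_of_degree_lt, mul_zero]
      refine (hdeg i).trans_le ?_
      exact_mod_cast hk
  have hrel3 : ∀ x : Ω, ∑ i, algebraMap _ Ω (α i) * aeval x (l i) = 0 := by
    intro x
    have h1 := congrArg (fun g : (PowerSeries ℤ_[p])[X] => aeval x g) hrel2
    simpa [map_sum] using h1
  have hdet0 : (Matrix.of fun i j : Fin r => aeval (θ (π j)) (l i) / (M : Ω)).det = 0 := by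
    rw [← Matrix.exists_vecMul_eq_zero_iff]
    refine ⟨fun i => algebraMap _ Ω (α i), ?_, ?_⟩
    · intro h0
      apply hα
      funext i
      apply hinj
      rw [congrFun h0 i]
      simp
    · funext j
      rw [Matrix.vecMul, dotProduct, Pi.zero_apply]
      have h1 := hrel3 (θ (π j))
      have h2 : ∑ i, algebraMap _ Ω (α i) * (aeval (θ (π j)) (l i) / (M : Ω)) =
          (∑ i, algebraMap _ Ω (α i) * aeval (θ (π j)) (l i)) / (M : Ω) := by
        rw [Finset.sum_div]
        exact Finset.sum_congr rfl fun i _ => by ring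
      simp only [Matrix.of_apply]
      rw [h2, h1, zero_div]
  -- the logarithmic derivatives
  have hdl : ∀ i j, D (aeval (θ j) (l i) / (M : Ω)) =
      D ((spr (u i) τ).eval (θ j)) / (spr (u i) τ).eval (θ j) := by
    intro i j
    refine dlog D p M hM _ _ (aeval (θ j) (w i)) (hx0 i j) ?_
      (lgd p (spr f T) (w i) (l i) hFm (hlog i) Ω D hD (θ j) (hF0 j) (hFd' j))
    have h1 := congrArg (fun g : (PowerSeries ℤ_[p])[X] => aeval (θ j) g) (hu i)
    simp only [map_add, map_mul, map_one, map_pow, map_natCast] at h1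
    rw [hF0 j, zero_mul, add_zero, haev, spr_map] at h1
    exact h1
  have halg : ∀ (K : Type) [Field K] [Algebra K Ω] (t : K), algebraMap K Ω t = τ →
      ∀ k : Fin r × Fin n, IsAlgebraic K ((spr (u k.1) τ).eval (θ k.2)) := by
    intro K _ _ t ht k
    have h1 := (int_val (K := K) t f hf (θ k.2) (by rw [ht]; exact hroot k.2) (u k.1)).2
    rw [ht] at h1
    exact h1.isAlgebraic
  have key := axk Ω D τ hDτ0 (Fin r × Fin n) (Fin r)
    (fun k => (spr (u k.1) τ).eval (θ k.2)) (fun k => aeval (θ k.2) (l k.1) / (M : Ω))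
    (fun k => lam k.1 k.2) (fun i j => (i, π j)) (fun k => hx0 k.1 k.2)
    (halg (Fld D τ) ⟨τ, Subfield.subset_closure (by simp)⟩ rfl) (fun k => hdl k.1 k.2)
    (by
      intro m hm
      have h1 : IsAlgebraic ℚ (∏ k : Fin r × Fin n, (spr (u k.1) τ).eval (θ k.2) ^ m k) := by
        refine cst Ω D τ _ hDτ0 ?_ hm
        apply alg_prod
        exact halg (IntermediateField.adjoin ℚ {τ})
          ⟨τ, IntermediateField.subset_adjoin ℚ _ rfl⟩ rfl
      have h2 := hker (fun i j => m (i, j)) (by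
        rw [Fintype.prod_prod_type] at h1
        exact h1)
      rw [Fintype.sum_prod_type]
      exact h2) hdet0
  exact hdet key

end Pool.Agent.LUB.H88
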